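import Mathlib
import Pool.Agent.Q64.L.Stmt

/-!
# Unramified cohomology of the products with abelian varieties: definitions
-/

set_option autoImplicit false

namespace Pool.Agent.Q64.U

open Polynomial Pool.Agent.Y156.L Pool.Agent.Q64.L

/-- The subspace `W` of `V`, with the map `u`, is the tensor product with `ℚ` of the group of all
sequences of elements of the abelian group `G`. -/
structure IsHull (G : Type) [AddCommGroup G] {V : Type} [AddCommGroup V] [Module ℚ V]
    (W : Submodule ℚ V) (u : (ℕ → G) →+ V) : Prop where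
  mem : ∀ x, u x ∈ W
  kernel : ∀ x, u x = 0 → ∃ n : ℕ, 0 < n ∧ n • x = 0
  range : ∀ w ∈ W, ∃ (n : ℕ) (x : ℕ → G), 0 < n ∧ n • w = u x

/-- `G` is a torsion group, and for every prime number `l` the subgroup of the elements whose order is
a power of `l` is an extension of a finite group by a divisible group. -/
structure IsAlmostDivisible (G : Type) [AddCommGroup G] : Prop where
  torsion : ∀ x : G, ∃ n : ℕ, 0 < n ∧ n • x = 0
  primary : ∀ l : ℕ, l.Prime → ∃ D : AddSubgroup G, (∀ d ∈ D, ∃ m : ℕ, l ^ m • d = 0) ∧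
    (∀ d ∈ D, ∃ d' ∈ D, l • d' = d) ∧
    ∃ S : Finset G, ∀ x : G, (∃ m : ℕ, l ^ m • x = 0) → ∃ s ∈ S, x - s ∈ D

/-- Data of unramified cohomology: the groups `HN n = H^(n + 1)_nr (Z, ℚ/ℤ(n))` and
`HM n = H^(n + 1)_nr (A × Z, ℚ/ℤ(n))`, the pull-back by the projection `A × Z → Z`, and the maps of
the groups of sequences to the theory `T`. -/
structure UnramifiedData {K : Type} [Field K] {A : AbelianData K} (T : RelData A) where
  /-- unramified cohomology of `Z` -/
  HN : ℕ → Type
  [groupN : ∀ n, AddCommGroup (HN n)]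
  /-- unramified cohomology of `A × Z` -/
  HM : ℕ → Type
  [groupM : ∀ n, AddCommGroup (HM n)]
  /-- the pull-back -/
  res : ∀ n, HN n →+ HM n
  /-- sequences of unramified classes of `Z` -/
  uN : ∀ n, (ℕ → HN n) →+ T.N
  /-- sequences of unramified classes of `A × Z` -/
  uM : ∀ n, (ℕ → HM n) →+ T.M

attribute [instance] UnramifiedData.groupN UnramifiedData.groupM

/-- The pull-back of an unramified class. -/
def UnramifiedData.pull {K : Type} [Field K] {A : AbelianData K} {T : RelData A}
    (U : UnramifiedData T) (n : ℕ) (x : U.HN n) : U.HM n := U.res n x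

/-- `T` is the Chow theory with coefficients in the cycle modules `H^(* + 1) (ℚ/ℤ(*))`, more precisely
the sum of the tensor products with `ℚ` of the groups of sequences in the groups
`A^p (Z, H^(* + 1) (ℚ/ℤ(*)), j)` of Rost, which have the bidegree `(p + j, j)`. The groups of
bidegree `(n, n)` are those of unramified cohomology (`p = 0`), there are no groups with `p < 0`, and
the pull-back is the product with the fundamental class of `A`. -/
structure IsUnramified {K : Type} [Field K] {A : AbelianData K} {T : RelData A}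
    (U : UnramifiedData T) : Prop where
  hullN : ∀ n : ℕ, IsHull (U.HN n) (T.grN n n) (U.uN n)
  hullM : ∀ n : ℕ, IsHull (U.HM n) (T.grM n n) (U.uM n)
  pull : ∀ (n : ℕ) (x : ℕ → U.HN n), U.uM n (fun i => U.pull n (x i)) = T.mul 1 (U.uN n x)
  negative : ∀ (i j : ℤ) (z : T.N), i < j → T.DegN i j z → z = 0

/-- The pull-back from `H^(n + 1)_nr (Z, ℚ/ℤ(n))` to `H^(n + 1)_nr (A × Z, ℚ/ℤ(n))` is an isomorphism
up to groups of bounded exponent. -/
def PullIsoBounded {K : Type} [Field K] {A : AbelianData K} {T : RelData A}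
    (U : UnramifiedData T) (n : ℕ) : Prop :=
  ∃ N : ℕ, 0 < N ∧ (∀ x, U.pull n x = 0 → N • x = 0) ∧ ∀ y, ∃ x, N • y = U.pull n x

/-- `UnramifiedReduces P q F`: let `A` be an abelian variety as in `IsAbelian` and `Z` a smooth
projective variety, over the field with `q ^ s` elements, whose Frobenius endomorphism satisfies
polynomials with the property `P`. For all `n` the pull-back
`H^(n + 1)_nr (Z, ℚ/ℤ(n)) → H^(n + 1)_nr (A × Z, ℚ/ℤ(n))` is an isomorphism up to groups of bounded
exponent; and, as the groups `H^3_nr (·, ℚ/ℤ(2))` are almost divisible, `H^3_nr (A × Z, ℚ/ℤ(2))` is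
finite if and only if `H^3_nr (Z, ℚ/ℤ(2))` is finite. -/
def UnramifiedReduces (P : ℚ[X] → Prop) (q : ℕ) {I : Type} (F : I → ℤ[X]) : Prop :=
  ∀ (K : Type) [Field K] [CharZero K] (A : AbelianData K) (s : ℕ), IsAbelian A q s F →
    ∀ T : RelData A, IsTheory P (q ^ s) T → T.IsPure (q ^ s) →
      ∀ U : UnramifiedData T, IsUnramified U → (∀ n, PullIsoBounded U n) ∧
        (IsAlmostDivisible (U.HN 2) → IsAlmostDivisible (U.HM 2) →
          (Finite (U.HM 2) ↔ Finite (U.HN 2)))

end Pool.Agent.Q64.U
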