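import Mathlib
import Pool.Agent.Q64.U.Defs
import Pool.Agent.Q64.L.Iff

/-!
# Unramified cohomology of the products with abelian varieties: proofs
-/

set_option autoImplicit false
set_option linter.unusedSectionVars false

namespace Pool.Agent.Q64.U

open Module Polynomial Pool.Agent.Y156.L Pool.Agent.Q64.L

section groups

variable {G G' : Type} [AddCommGroup G] [AddCommGroup G']

/-- An almost divisible group of bounded exponent is finite. -/
theorem finite_of_bounded (hG : IsAlmostDivisible G) {N : ℕ} (hN : 0 < N)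
    (h : ∀ x : G, N • x = 0) : Finite G := by
  classical
  -- the primary parts
  have hfin : ∀ l : ℕ, l.Prime → ∃ S : Finset G, ∀ x : G, (∃ m : ℕ, l ^ m • x = 0) → x ∈ S := by
    intro l hl
    obtain ⟨D, hD1, hD2, S, hS⟩ := hG.primary l hl
    refine ⟨S, fun x hx => ?_⟩
    obtain ⟨s, hs, hxs⟩ := hS x hx
    have hD0 : ∀ d ∈ D, d = 0 := by
      have hpow : ∀ (k : ℕ), ∀ d ∈ D, ∃ d' ∈ D, l ^ k • d' = d := by
        intro k
        induction k with
        | zero => exact fun d hd => ⟨d, hd, by simp⟩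
        | succ k ih =>
          intro d hd
          obtain ⟨d1, h1, h2⟩ := ih d hd
          obtain ⟨d2, h3, h4⟩ := hD2 d1 h1
          refine ⟨d2, h3, ?_⟩
          rw [pow_succ, mul_smul, h4, h2]
      intro d hd
      obtain ⟨d', hd', h1⟩ := hpow (N.factorization l) d hd
      have h2 := h d'
      have h3 : (N / l ^ N.factorization l) • d = 0 := by
        rw [← h1, ← mul_smul, Nat.div_mul_cancel (Nat.ordProj_dvd N l)]
        exact h2
      obtain ⟨m, hm⟩ := hD1 d hd
      have hcop : Nat.Coprime (N / l ^ N.factorization l) (l ^ m) :=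
        Nat.Coprime.pow_right m (Nat.coprime_ordCompl hl hN.ne').symm
      have h4 : addOrderOf d ∣ Nat.gcd (N / l ^ N.factorization l) (l ^ m) :=
        Nat.dvd_gcd (addOrderOf_dvd_of_nsmul_eq_zero h3) (addOrderOf_dvd_of_nsmul_eq_zero hm)
      rw [hcop] at h4
      have h5 : addOrderOf d = 1 := Nat.dvd_one.1 h4
      rwa [AddMonoid.addOrderOf_eq_one_iff] at h5
    have h1 := hD0 _ hxs
    rw [sub_eq_zero] at h1
    rw [h1]
    exact hs
  choose! S hS using hfin
  -- the map to the product of the primary parts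
  let T : Finset ℕ := N.primeFactors
  have hmem : ∀ (x : G) (l : T), (N / (l : ℕ) ^ N.factorization l) • x ∈ S l := by
    intro x l
    have hl : (l : ℕ).Prime := Nat.prime_of_mem_primeFactors l.2
    refine hS l hl _ ⟨N.factorization l, ?_⟩
    rw [← mul_smul, Nat.mul_div_cancel' (Nat.ordProj_dvd N l)]
    exact h x
  let φ : G → (∀ l : T, S l) := fun x l => ⟨_, hmem x l⟩
  have hφ : Function.Injective φ := by
    intro x y hxy
    have h1 : ∀ l : T, (N / (l : ℕ) ^ N.factorization l) • (x - y) = 0 := by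
      intro l
      have h2 := congrArg Subtype.val (congrFun hxy l)
      rw [smul_sub, sub_eq_zero]
      exact h2
    by_contra hne
    have hxy0 : addOrderOf (x - y) ≠ 1 := by
      rw [Ne, AddMonoid.addOrderOf_eq_one_iff, sub_eq_zero]
      exact hne
    obtain ⟨l, hl, hld⟩ := Nat.exists_prime_and_dvd hxy0
    have hlN : l ∣ N := hld.trans (addOrderOf_dvd_of_nsmul_eq_zero (h _))
    have h2 := h1 ⟨l, Nat.mem_primeFactors.2 ⟨hl, hlN, hN.ne'⟩⟩
    have h3 := hld.trans (addOrderOf_dvd_of_nsmul_eq_zero h2)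
    exact Nat.not_dvd_ordCompl hl hN.ne' h3
  exact Finite.of_injective φ hφ

/-- A statement on all sequences with some multiple is uniform. -/
theorem uniform (R : ℕ → G → Prop) (hR : ∀ (a b : ℕ) (x : G), 0 < b → a ∣ b → R a x → R b x)
    (h : ∀ x : ℕ → G, ∃ n : ℕ, 0 < n ∧ ∀ i, R n (x i)) : ∃ n : ℕ, 0 < n ∧ ∀ x, R n x := by
  by_contra hcon
  push Not at hcon
  choose! x hx using hcon
  obtain ⟨n, hn, h1⟩ := h fun i => x (i.factorial)
  have h2 := h1 n
  exact hx _ (Nat.factorial_pos n) (hR n _ _ (Nat.factorial_pos n)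
    (Nat.dvd_factorial hn le_rfl) h2)

/-- The comparison of two groups by their hulls. -/
theorem bounded_of_hull {V V' : Type} [AddCommGroup V] [Module ℚ V] [AddCommGroup V']
    [Module ℚ V'] {W : Submodule ℚ V} {W' : Submodule ℚ V'} {u : (ℕ → G) →+ V}
    {u' : (ℕ → G') →+ V'} (hu : IsHull G W u) (hu' : IsHull G' W' u') (f : G →+ G')
    (φ : V →ₗ[ℚ] V') (hφ : ∀ x : ℕ → G, u' (fun i => f (x i)) = φ (u x))
    (hinj : ∀ v ∈ W, φ v = 0 → v = 0) (hsurj : ∀ w ∈ W', ∃ v ∈ W, φ v = w) :
    ∃ N : ℕ, 0 < N ∧ (∀ x, f x = 0 → N • x = 0) ∧ ∀ y, ∃ x, N • y = f x := by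
  obtain ⟨N₁, hN₁, h1⟩ : ∃ n : ℕ, 0 < n ∧ ∀ x : G, f x = 0 → n • x = 0 := by
    refine uniform (fun n x => f x = 0 → n • x = 0) ?_ ?_
    · rintro a b x - ⟨c, rfl⟩ h hx
      rw [mul_comm, mul_smul, h hx, smul_zero]
    · intro x
      by_cases hx : ∃ y : ℕ → G, (∀ i, f (y i) = 0) ∧ ∀ i, f (x i) = 0 → y i = x i
      · obtain ⟨y, hy, hyx⟩ := hx
        have h2 : φ (u y) = 0 := by
          rw [← hφ, show (fun i => f (y i)) = 0 from funext hy, map_zero]
        obtain ⟨n, hn, h3⟩ := hu.kernel y (hinj _ (hu.mem y) h2)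
        refine ⟨n, hn, fun i hi => ?_⟩
        have h4 := congrFun h3 i
        rw [← hyx i hi]
        exact h4
      · exfalso
        apply hx
        classical
        refine ⟨fun i => if f (x i) = 0 then x i else 0, fun i => ?_, fun i hi => if_pos hi⟩
        beta_reduce
        split_ifs with h
        · exact h
        · exact map_zero f
  obtain ⟨N₂, hN₂, h2⟩ : ∃ n : ℕ, 0 < n ∧ ∀ y : G', ∃ x : G, n • y = f x := by
    refine uniform (fun n y => ∃ x : G, n • y = f x) ?_ ?_
    · rintro a b y - ⟨c, rfl⟩ ⟨x, hx⟩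
      exact ⟨c • x, by rw [mul_comm, mul_smul, hx, map_nsmul]⟩
    · intro y
      obtain ⟨v, hv, hvy⟩ := hsurj _ (hu'.mem y)
      obtain ⟨k, x, hk, hx⟩ := hu.range v hv
      have h3 : u' (k • y - fun i => f (x i)) = 0 := by
        rw [map_sub, map_nsmul, hφ, ← hx, map_nsmul, hvy, sub_self]
      obtain ⟨l, hl, h4⟩ := hu'.kernel _ h3
      refine ⟨l * k, Nat.mul_pos hl hk, fun i => ⟨l • x i, ?_⟩⟩
      have h5 := congrFun h4 i
      have h6 : l • (k • y i - f (x i)) = 0 := h5
      rw [smul_sub, sub_eq_zero] at h6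
      rw [mul_smul, h6, map_nsmul]
  refine ⟨N₁ * N₂, Nat.mul_pos hN₁ hN₂, fun x hx => ?_, fun y => ?_⟩
  · rw [mul_comm, mul_smul, h1 x hx, smul_zero]
  · obtain ⟨x, hx⟩ := h2 y
    exact ⟨N₁ • x, by rw [mul_smul, hx, map_nsmul]⟩

theorem finite_iff {f : G →+ G'} (hG : IsAlmostDivisible G) (hG' : IsAlmostDivisible G')
    (h : ∃ N : ℕ, 0 < N ∧ (∀ x, f x = 0 → N • x = 0) ∧ ∀ y, ∃ x, N • y = f x) :
    Finite G' ↔ Finite G := by
  obtain ⟨N, hN, h1, h2⟩ := h
  constructor
  · intro hf
    have hc : 0 < Nat.card G' := Nat.card_pos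
    refine finite_of_bounded hG (Nat.mul_pos hN hc) fun x => ?_
    rw [mul_smul]
    refine h1 _ ?_
    rw [map_nsmul]
    exact card_nsmul_eq_zero'
  · intro hf
    have hc : 0 < Nat.card G := Nat.card_pos
    refine finite_of_bounded hG' (Nat.mul_pos hc hN) fun y => ?_
    obtain ⟨x, hx⟩ := h2 y
    rw [mul_smul, hx, ← map_nsmul, card_nsmul_eq_zero', map_zero]

end groups

variable {P : ℚ[X] → Prop} {q : ℕ} (hq : 1 < q) {I : Type} {F : I → ℤ[X]} (hG : Good P q F)

include hq hG

/-- **Unramified cohomology.** -/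
theorem unramifiedReduces : UnramifiedReduces P q F := by
  intro K _ _ A s hA T hT hpure U hU
  obtain ⟨J, hJ, c, D, E', hF, hdual, hQ, hmain⟩ := exists_classes hq hG hA
  obtain ⟨t₀, ht₀⟩ := hF.exists_eq 0 (Nat.zero_le _)
  have hD1 : ∀ t, c t = 0 → D t = 1 := by
    intro t ht
    obtain ⟨L, hL, -, hD⟩ := hF.product t
    rw [ht] at hL
    rw [hD, List.length_eq_zero_iff.1 hL, List.prod_nil]
  have key : ∀ n, PullIsoBounded U n := by
    intro n
    refine bounded_of_hull (hU.hullN n) (hU.hullM n) (U.res n) (T.times 1) (hU.pull n) ?_ ?_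
    · intro v _ hv
      classical
      have h1 := dualpair hT.rel hdual t₀ t₀ v
      rw [if_pos rfl, hD1 t₀ ht₀, hv, map_zero] at h1
      exact h1.symm
    · intro w hw
      have hinv := hpure n n w hw
      have h1 := (hmain T hT.rel hT.degree hT.eigenvalues n n w (genM_of_inv hinv)).1
      have h2 : ∀ t, T.times (D t) (T.pair (E' t) w) =
          T.times 1 (if c t = 0 then T.pair (E' t) w else 0) := by
        intro t
        by_cases ht : c t = 0
        · rw [if_pos ht, hD1 t ht]
        · rw [if_neg ht, map_zero]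
          have h3 : T.DegN (n - 2 * c t) (n - c t) (T.pair (E' t) w) :=
            hT.rel.pair_mem (by have := hdual.le t; omega) (hdual.right t) hw
          have h4 := hU.negative _ _ _ (by omega) h3
          rw [h4, map_zero]
      refine ⟨∑ t, if c t = 0 then T.pair (E' t) w else 0, ?_, ?_⟩
      · refine Submodule.sum_mem _ fun t _ => ?_
        split_ifs with ht
        · have h3 : T.DegN (n - 2 * c t) (n - c t) (T.pair (E' t) w) :=
            hT.rel.pair_mem (by have := hdual.le t; omega) (hdual.right t) hw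
          rw [ht] at h3
          simpa [RelData.DegN] using h3
        · exact Submodule.zero_mem _
      · rw [map_sum]
        conv_rhs => rw [h1]
        exact Finset.sum_congr rfl fun t _ => (h2 t).symm
  exact ⟨key, fun h1 h2 => finite_iff h1 h2 (key 2)⟩

end Pool.Agent.Q64.U
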